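import Pool.Agent.Lib_helper46.Chrom.NSDefs

/-!
# Lemma M (note 1214, 5.5)
-/

open Finset

namespace Pool.Agent.Chrom

section
variable {V : Type} [Fintype V] [DecidableEq V] {G : SimpleGraph V} {D Z Y S : Finset V} {d : V}

/-- a connected set of `G - S` that meets the punctured component `K \ {d}` and contains neither
`d` nor a point of `Y` lies in `K \ {d}`. -/
lemma lemmaM_inside (hZ : ∀ z ∈ Z, ∀ w, G.Adj z w → w ∈ D) (hdZY : d ∉ Z ∪ Y)
    (hsep : ∀ d' ∈ D, d ≠ d' → ¬ (del G (Z ∪ Y)).Reachable d d')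
    {C : Finset V} (hC : C ∈ comps G S) (hdC : d ∉ C) (hYC : ∀ y ∈ Y, y ∉ C)
    {v : V} (hv : v ∈ C) (hvK : (del G (Z ∪ Y)).Reachable d v) :
    ∀ w ∈ C, (del G (Z ∪ Y)).Reachable d w := by
  intro w hw
  have hr : (del G S).Reachable v w := by
    rw [← mem_comp, comp_eq_of_mem_comps hC hv]; exact hw
  have hvS : v ∉ S := Finset.disjoint_left.1 (comps_disjoint_S hC) hv
  clear hw
  obtain ⟨p⟩ := hr
  induction p with
  | nil => exact hvK
  | @cons a b c hab p ih =>
    have hbC : b ∈ C := comps_closed hC hv hab.1 hab.2.2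
    refine ih hbC ?_ hab.2.2
    have haD : a ∉ D := by
      intro haD
      rcases eq_or_ne d a with h | h
      · exact hdC (h ▸ hv)
      · exact hsep a haD h hvK
    have hbZ : b ∉ Z := fun hbZ => haD (hZ b hbZ a hab.1.symm)
    have hbY : b ∉ Y := fun hbY => hYC b hbY hbC
    have haZY : a ∉ Z ∪ Y := not_mem_of_reachable hvK hdZY
    exact hvK.trans (SimpleGraph.Adj.reachable ⟨hab.1, haZY, by
      rw [mem_union]; tauto⟩)

/-- one step: the punctured component `K_d \ {d}` can be removed from `S`. -/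
lemma lemmaM_step (hDZ : Disjoint D Z) (hDY : Disjoint D Y)
    (hZ : ∀ z ∈ Z, ∀ w, G.Adj z w → w ∈ D) (hd : d ∈ D)
    (hsep : ∀ d' ∈ D, d ≠ d' → ¬ (del G (Z ∪ Y)).Reachable d d')
    (hSY : Disjoint S Y) (hne : (S ∩ Z).Nonempty)
    (hle : ∀ X, X ⊂ S → X.Nonempty → cc G X ≤ 0)
    (hY : ∀ y ∈ Y, ∀ y' ∈ Y, (del G S).Reachable y y')
    (hW : (S ∩ (comp G (Z ∪ Y) d).erase d).Nonempty) :
    cc G S ≤ cc G (S \ (S ∩ (comp G (Z ∪ Y) d).erase d)) := by
  classical
  have hdZY : d ∉ Z ∪ Y := by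
    rw [mem_union, not_or]
    exact ⟨Finset.disjoint_left.1 hDZ hd, Finset.disjoint_left.1 hDY hd⟩
  set K := comp G (Z ∪ Y) d with hK
  set W := S ∩ K.erase d with hWdef
  have hWS : W ⊆ S := inter_subset_left
  have hKZ : ∀ v ∈ K, v ∉ Z ∪ Y := fun v hv => not_mem_of_reachable (mem_comp.1 hv) hdZY
  have hKD : ∀ v ∈ K, v ∈ D → v = d := by
    intro v hv hvD
    by_contra h
    exact hsep v hvD (Ne.symm h) (mem_comp.1 hv)
  have h1 := le_kk_sdiff (G := G) hWS hW
  -- neighbours of the punctured component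
  have hnb : ∀ w ∈ K, w ≠ d → ∀ v, G.Adj w v → v ∈ K ∨ v ∈ Y := by
    intro w hw hwd v hwv
    by_cases hvY : v ∈ Y
    · exact Or.inr hvY
    · left
      have hvZ : v ∉ Z := fun hvZ => hwd (hKD w hw (hZ v hvZ w hwv.symm))
      rw [hK, mem_comp]
      refine (mem_comp.1 hw).trans (SimpleGraph.Adj.reachable ⟨hwv, hKZ w hw, ?_⟩)
      rw [mem_union]; tauto
  -- the set X
  set X := S ∩ K with hX
  have hXS : X ⊂ S := by
    refine ⟨inter_subset_left, fun h => ?_⟩
    obtain ⟨z, hz⟩ := hne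
    rw [mem_inter] at hz
    have := (mem_inter.1 (h hz.1)).2
    exact hKZ z this (mem_union_left _ hz.2)
  have hXne : X.Nonempty := by
    obtain ⟨w, hw⟩ := hW
    rw [hWdef, mem_inter, mem_erase] at hw
    exact ⟨w, mem_inter.2 ⟨hw.1, hw.2.2⟩⟩
  have hcX := hle X hXS hXne
  -- three kinds of components near W
  let N := nearComps G S W
  let N1 := N.filter fun C => ∃ y ∈ Y, y ∈ C
  let N2 := N.filter fun C => d ∈ C
  let R := N.filter fun C => (∀ y ∈ Y, y ∉ C) ∧ d ∉ C
  have hN : N ⊆ N1 ∪ (N2 ∪ R) := by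
    intro C hC
    by_cases hy : ∃ y ∈ Y, y ∈ C
    · exact mem_union_left _ (mem_filter.2 ⟨hC, hy⟩)
    · by_cases hdC : d ∈ C
      · exact mem_union_right _ (mem_union_left _ (mem_filter.2 ⟨hC, hdC⟩))
      · push Not at hy
        exact mem_union_right _ (mem_union_right _ (mem_filter.2 ⟨hC, hy, hdC⟩))
  have hN1 : N1.card ≤ 1 := by
    rw [card_le_one]
    intro C hC C' hC'
    obtain ⟨hC1, y, hy, hyC⟩ := mem_filter.1 hC
    obtain ⟨hC2, y', hy', hyC'⟩ := mem_filter.1 hC'
    have hc1 := (mem_nearComps.1 hC1).1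
    have hc2 := (mem_nearComps.1 hC2).1
    have : y' ∈ C := by
      rw [← comp_eq_of_mem_comps hc1 hyC, mem_comp]
      exact hY y hy y' hy'
    exact comps_eq_of_mem hc1 hc2 this hyC'
  have hN2 : N2.card ≤ 1 := by
    rw [card_le_one]
    intro C hC C' hC'
    obtain ⟨hC1, hdC⟩ := mem_filter.1 hC
    obtain ⟨hC2, hdC'⟩ := mem_filter.1 hC'
    exact comps_eq_of_mem (mem_nearComps.1 hC1).1 (mem_nearComps.1 hC2).1 hdC hdC'
  have hN2' : d ∈ S → N2.card = 0 := by
    intro hdS
    rw [card_eq_zero, filter_eq_empty_iff]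
    intro C hC hdC
    exact Finset.disjoint_left.1 (comps_disjoint_S (mem_nearComps.1 hC).1) hdC hdS
  -- R consists of components of G - X inside K
  have hRin : ∀ C ∈ R, C ∈ comps G S ∧ ∀ w ∈ C, w ∈ K ∧ w ≠ d := by
    intro C hC
    obtain ⟨hC1, hC2, hC3⟩ := mem_filter.1 hC
    obtain ⟨hC4, w, hw, v, hv, hwv⟩ := mem_nearComps.1 hC1
    rw [hWdef, mem_inter, mem_erase] at hw
    have hvK : v ∈ K := by
      rcases hnb w hw.2.2 hw.2.1 v hwv with h | h
      · exact h
      · exact absurd hv (hC2 v h)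
    refine ⟨hC4, fun u hu => ⟨?_, fun h => hC3 (h ▸ hu)⟩⟩
    rw [hK, mem_comp]
    exact lemmaM_inside hZ hdZY hsep hC4 hC3 hC2 hv (mem_comp.1 hvK) u hu
  have hRX : R ⊆ comps G X := by
    intro C hC
    obtain ⟨hC1, hC2⟩ := hRin C hC
    have hC3 := (mem_filter.1 hC).2.1
    refine comps_of_comps hC1 (Finset.disjoint_of_subset_right inter_subset_left
      (comps_disjoint_S hC1)) ?_
    intro u hu v huv hvC
    have hvS : v ∈ S := by
      by_contra hvS
      exact hvC (comps_closed hC1 hu huv hvS)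
    refine mem_inter.2 ⟨hvS, ?_⟩
    rcases hnb u (hC2 u hu).1 (hC2 u hu).2 v huv with h | h
    · exact h
    · exact absurd h (Finset.disjoint_left.1 hSY hvS)
  have hRcard : R.card + 1 ≤ kk G X := by
    obtain ⟨z, hz⟩ := hne
    rw [mem_inter] at hz
    have hzX : z ∉ X := fun h => hKZ z (mem_inter.1 h).2 (mem_union_left _ hz.2)
    have hzR : comp G X z ∉ R := by
      intro h
      have := (hRin _ h).2 z (self_mem_comp z)
      exact hKZ z this.1 (mem_union_left _ hz.2)
    unfold kk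
    rw [← card_insert_of_notMem hzR]
    refine card_le_card ?_
    intro C hC
    rcases mem_insert.1 hC with rfl | hC
    · exact comp_mem_comps hzX
    · exact hRX hC
  have hcard : N.card ≤ N1.card + (N2.card + R.card) :=
    (card_le_card hN).trans ((card_union_le _ _).trans (Nat.add_le_add_left (card_union_le _ _) _))
  have hcX' : kk G X ≤ X.card := by
    unfold cc at hcX
    omega
  have hXW : (d ∈ S → X.card ≤ W.card + 1) ∧ (d ∉ S → X.card ≤ W.card) := by
    constructor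
    · intro _
      have : X ⊆ insert d W := by
        intro v hv
        rw [hX, mem_inter] at hv
        rcases eq_or_ne v d with h | h
        · exact mem_insert.2 (Or.inl h)
        · exact mem_insert_of_mem (mem_inter.2 ⟨hv.1, mem_erase.2 ⟨h, hv.2⟩⟩)
      exact (card_le_card this).trans (card_insert_le _ _)
    · intro hdS
      refine card_le_card ?_
      intro v hv
      rw [hX, mem_inter] at hv
      exact mem_inter.2 ⟨hv.1, mem_erase.2 ⟨fun h => hdS (h ▸ hv.1), hv.2⟩⟩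
  have hnear : N.card ≤ W.card + 1 := by
    by_cases hdS : d ∈ S
    · have := hN2' hdS
      have := hXW.1 hdS
      omega
    · have := hXW.2 hdS
      omega
  have hcd : (S \ W).card + W.card = S.card := card_sdiff_add_card_eq_card hWS
  have hN' : (nearComps G S W).card = N.card := rfl
  unfold cc
  omega
end

/-- **Lemma M** -/
theorem lemmaM : StmtLemmaM := by
  intro V _ _ G D Z Y S
  induction hn : S.card using Nat.strong_induction_on generalizing S with
  | _ n ih =>
  intro hDZ hDY hZY hZ hsep hS hne hle h0 hY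
  by_cases hsub : S ⊆ D ∪ Z
  · rwa [inter_eq_left.2 hsub]
  obtain ⟨s, hs, hsn⟩ := not_subset.1 hsub
  have hsZ : s ∉ Z := fun h => hsn (mem_union_right _ h)
  have hsD : s ∉ D := fun h => hsn (mem_union_left _ h)
  obtain ⟨d, hd, hr⟩ := (hS s hs).resolve_left hsZ
  have hdZY : ∀ d ∈ D, d ∉ Z ∪ Y := by
    intro d hd
    rw [mem_union, not_or]
    exact ⟨Finset.disjoint_left.1 hDZ hd, Finset.disjoint_left.1 hDY hd⟩
  have hSY : Disjoint S Y := by
    rw [Finset.disjoint_left]
    intro v hv hvY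
    rcases hS v hv with h | ⟨d', hd', h⟩
    · exact Finset.disjoint_left.1 hZY h hvY
    · exact not_mem_of_reachable h (hdZY d' hd') (mem_union_right _ hvY)
  set W := S ∩ (comp G (Z ∪ Y) d).erase d with hWdef
  have hsW : s ∈ W := by
    rw [hWdef, mem_inter, mem_erase, mem_comp]
    exact ⟨hs, fun h => hsD (h ▸ hd), hr⟩
  have hstep := lemmaM_step hDZ hDY hZ hd (hsep d hd) hSY hne hle hY ⟨s, hsW⟩
  rw [← hWdef] at hstep
  have hWS : W ⊆ S := inter_subset_left
  have hWDZ : ∀ v ∈ W, v ∉ D ∪ Z := by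
    intro v hv hvDZ
    rw [hWdef, mem_inter, mem_erase, mem_comp] at hv
    rcases mem_union.1 hvDZ with h | h
    · exact hsep d hd v h (Ne.symm hv.2.1) hv.2.2
    · exact not_mem_of_reachable hv.2.2 (hdZY d hd) (mem_union_left _ h)
  have hss : S \ W ⊂ S := by
    refine ⟨sdiff_subset, fun h => ?_⟩
    exact (mem_sdiff.1 (h hs)).2 hsW
  have hinter : (S \ W) ∩ (D ∪ Z) = S ∩ (D ∪ Z) := by
    ext v
    simp only [mem_inter, mem_sdiff]
    constructor
    · rintro ⟨⟨h1, _⟩, h2⟩; exact ⟨h1, h2⟩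
    · rintro ⟨h1, h2⟩; exact ⟨⟨h1, fun h => hWDZ v h h2⟩, h2⟩
  rw [← hinter]
  refine ih (S \ W).card (by rw [← hn]; exact card_lt_card hss) (S \ W) rfl hDZ hDY hZY hZ hsep
    ?_ ?_ ?_ ?_ ?_
  · intro v hv
    exact hS v (mem_sdiff.1 hv).1
  · obtain ⟨z, hz⟩ := hne
    rw [mem_inter] at hz
    exact ⟨z, mem_inter.2 ⟨mem_sdiff.2 ⟨hz.1, fun h => hWDZ z h (mem_union_right _ hz.2)⟩, hz.2⟩⟩
  · intro X hX hXne
    exact hle X (hX.trans hss) hXne
  · exact h0.trans hstep
  · intro y hy y' hy'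
    exact (hY y hy y' hy').mono (del_mono sdiff_subset)

end Pool.Agent.Chrom
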