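import Pool.Agent.Lib_helper28.Chrom.Stmt

/-!
# The measure of the alpha-move (note 1214, 2.1)
-/

open Finset

namespace Pool.Agent.Chrom

section
variable {V : Type} [Fintype V] [DecidableEq V] {A : Finset V → Prop} {u v x y : V}

/-- a tight pair `{x, y}` is not separated by an edge `uv`. -/
lemma muAvoid_key (h : NC A) (hT : Tight A {x, y}) (hxy : x ≠ y) (huv : (gr A).Adj u v)
    (hx : x ∉ ({u, v} : Finset V)) (hy : y ∉ ({u, v} : Finset V))
    (hr : ¬ (del (gr A) {u, v}).Reachable x y) : False := by
  classical
  have hk2 : kk (gr A) {x, y} = 2 := by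
    have h0 := hT.zero
    unfold cc at h0
    rw [card_pair hxy] at h0
    omega
  have hu : u ∉ ({x, y} : Finset V) := by
    simp only [mem_insert, mem_singleton, not_or] at hx hy ⊢
    exact ⟨Ne.symm hx.1, Ne.symm hy.1⟩
  have hv : v ∉ ({x, y} : Finset V) := by
    simp only [mem_insert, mem_singleton, not_or] at hx hy ⊢
    exact ⟨Ne.symm hx.2, Ne.symm hy.2⟩
  have huvr : v ∈ comp (gr A) {x, y} u := by
    rw [mem_comp]
    exact SimpleGraph.Adj.reachable ⟨huv, hu, hv⟩
  -- one-vertex cuts do not exist
  have hcut : ∀ C ∈ comps (gr A) {x, y}, ∀ a b, ({x, y} : Finset V) = {a, b} → a ≠ b →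
      (∀ c ∈ C, ¬ (gr A).Adj c b) → False := by
    intro C hC a b hab hne hnb
    have hC1 : C ∈ comps (gr A) {a} := by
      refine comps_of_comps hC ?_ ?_
      · rw [disjoint_singleton_right]
        intro haC
        refine Finset.disjoint_left.1 (comps_disjoint_S hC) haC ?_
        rw [hab]; exact mem_insert_self _ _
      · intro c hc w hcw hwC
        have hw : w ∈ ({x, y} : Finset V) := by
          by_contra hw
          exact hwC (comps_closed hC hc hcw hw)
        rw [hab, mem_insert, mem_singleton] at hw
        rcases hw with hw | hw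
        · rw [hw]; exact mem_singleton_self a
        · exact absurd (hw ▸ hcw) (hnb c hc)
    have hb : b ∉ ({a} : Finset V) := by rw [mem_singleton]; exact hne.symm
    have hbC : comp (gr A) {a} b ≠ C := by
      intro he
      have hbC : b ∈ C := by rw [← he]; exact self_mem_comp b
      refine Finset.disjoint_left.1 (comps_disjoint_S hC) hbC ?_
      rw [hab]; simp
    have h2 : 2 ≤ kk (gr A) {a} := by
      unfold kk
      rw [← card_pair hbC]
      refine card_le_card ?_
      intro E hE
      rcases mem_insert.1 hE with rfl | hE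
      · exact comp_mem_comps hb
      · rw [mem_singleton.1 hE]; exact hC1
    have h3 := h.face {a} (h.sing a) (singleton_nonempty a)
    unfold cc at h3
    rw [card_singleton] at h3
    omega
  -- every component contains u
  have hall : ∀ C ∈ comps (gr A) {x, y}, C = comp (gr A) {x, y} u := by
    intro C hC
    by_contra hne
    have huC : u ∉ C := fun huC => hne (comp_eq_of_mem_comps hC huC).symm
    have hvC : v ∉ C := by
      intro hvC
      apply hne
      rw [← comp_eq_of_mem_comps hC hvC]
      exact comp_eq_of_mem huvr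
    have hCd : Disjoint C {u, v} := by
      rw [disjoint_insert_right, disjoint_singleton_right]
      exact ⟨huC, hvC⟩
    by_cases h1 : ∃ c ∈ C, (gr A).Adj c x
    · by_cases h2 : ∃ c ∈ C, (gr A).Adj c y
      · obtain ⟨c, hc, hcx⟩ := h1
        obtain ⟨c', hc', hcy⟩ := h2
        apply hr
        have hcS : c ∉ ({u, v} : Finset V) := Finset.disjoint_left.1 hCd hc
        have hcS' : c' ∉ ({u, v} : Finset V) := Finset.disjoint_left.1 hCd hc'
        have e1 : (del (gr A) {u, v}).Reachable x c :=
          SimpleGraph.Adj.reachable ⟨hcx.symm, hx, hcS⟩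
        have e2 : (del (gr A) {u, v}).Reachable c' y :=
          SimpleGraph.Adj.reachable ⟨hcy, hcS', hy⟩
        have e3 : (del (gr A) {u, v}).Reachable c c' := by
          rw [← mem_comp]
          exact conn_subset_comp (comps_conn hC) hCd hc hc'
        exact e1.trans (e3.trans e2)
      · push Not at h2
        exact hcut C hC x y rfl hxy h2
    · push Not at h1
      exact hcut C hC y x (pair_comm x y) hxy.symm h1
  have : kk (gr A) {x, y} ≤ 1 := by
    unfold kk
    rw [card_le_one]
    intro C hC D hD
    rw [hall C hC, hall D hD]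
  omega

lemma nf_avoid_lt {T : Finset V} (hT : A T) : nf (avoid A T) < nf A := by
  classical
  unfold nf
  have h : {S : Finset V | avoid A T S} ⊂ {S : Finset V | A S} := by
    refine ⟨fun S hS => hS.1, fun h => ?_⟩
    exact (h (show T ∈ {S | A S} from hT)).2 (Subset.refl T)
  have := Set.ncard_lt_ncard h (Set.toFinite _)
  rwa [← Nat.card_coe_set_eq, ← Nat.card_coe_set_eq] at this

end

theorem stmtMuAvoid : StmtMuAvoid := by
  classical
  intro V _ _ A T h hT hc
  refine ⟨?_, nf_avoid_lt hT.face⟩
  unfold mu
  have hle : gr A ≤ gr (avoid A T) := gr_mono fun S hS => hS.1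
  refine Nat.card_mono (s := {p : V × V | (gr (avoid A T)).Adj p.1 p.2 ∧
    kk (gr (avoid A T)) {p.1, p.2} = 1}) (t := {p : V × V | (gr A).Adj p.1 p.2 ∧
    kk (gr A) {p.1, p.2} = 1}) (Set.toFinite _) ?_
  rintro ⟨u, v⟩ ⟨hadj, hk⟩
  simp only at hadj hk
  have hne : u ≠ v := hadj.ne
  have hTuv : ¬ T ⊆ {u, v} := by
    intro hsub
    have hcard : T.card = 2 := by
      have h1 := card_le_card hsub
      rw [card_pair hne] at h1
      have := hT.two
      omega
    have hTeq : T = {u, v} := eq_of_subset_of_card_le hsub (by rw [card_pair hne, hcard])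
    have hcomps : comps (gr (avoid A T)) {u, v} = comps (gr A) {u, v} := by
      refine comps_eq_of_reachable hle _ ?_
      rintro a b ⟨hab, ha, hb⟩
      rw [gr_avoid_adj] at hab
      rcases hab with hab | ⟨_, hab⟩
      · exact SimpleGraph.Adj.reachable ⟨hab, ha, hb⟩
      · exfalso
        have hu : u ∈ ({a, b} : Finset V) := hab (by rw [hTeq]; exact mem_insert_self _ _)
        rcases mem_insert.1 hu with hu | hu
        · exact ha (by rw [← hu]; exact mem_insert_self _ _)
        · exact hb (by rw [← mem_singleton.1 hu]; exact mem_insert_self _ _)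
    have h0 := hT.zero
    unfold kk at hk
    rw [hcomps] at hk
    unfold cc kk at h0
    rw [hTeq, card_pair hne, hk] at h0
    norm_num at h0
  have hadj' : (gr A).Adj u v := by
    rw [gr_avoid_adj] at hadj
    exact hadj.resolve_right fun h' => hTuv h'.2
  refine ⟨hadj', ?_⟩
  show kk (gr A) {u, v} = 1
  have hcomps : comps (gr (avoid A T)) {u, v} = comps (gr A) {u, v} := by
    refine comps_eq_of_reachable hle _ ?_
    rintro a b ⟨hab, ha, hb⟩
    rw [gr_avoid_adj] at hab
    rcases hab with hab | ⟨hab1, hab⟩
    · exact SimpleGraph.Adj.reachable ⟨hab, ha, hb⟩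
    · have hTeq : T = {a, b} := by
        refine eq_of_subset_of_card_le hab ?_
        rw [card_pair hab1]; exact hT.two
      by_contra hr
      exact muAvoid_key h (hTeq ▸ hT) hab1 hadj' ha hb hr
  unfold kk at hk ⊢
  rw [← hcomps]; exact hk

end Pool.Agent.Chrom
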